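import Pool.Agent.H29.L1L.Stmts
import Pool.Agent.H48.M5.L1Fin

/-!
# L1 for arbitrary time laws: the last step
-/

set_option autoImplicit false

namespace Pool.M5L

open Finset Real Pool.M5
open Pool.Agent.H49.Ent Pool.Agent.H32.Dense Pool.STK Pool.KAF Pool.KVA
open Pool.M5.S48

section

variable {k n K : ℕ}

/-- The position of the line is full given all the times. -/
theorem full_timesL {I : Type} [Fintype I] (b : Bas k I) (d : LDat k n I) {A : ℕ} {c ι ι₃ : ℝ}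
    (hOK : d.OK b A c) (hH1 : LMI d ι) (hH3 : d.H3 ι₃) {ι' : ℝ}
    (hι : ι₃ * Real.log 2 + (n + 3) * ι ≤ ι' * Real.log 2) :
    (k - ι') * d.X * Real.log 2 ≤ CH (d.Q4 0) (fun u => d.y (d.L (u.1 0)))
      (fun u => ((fun j => d.T (u.1 j)), (d.T u.2.1, d.T u.2.2))) := by
  have hp := hOK.law
  have hQ := RWA.Q4_isLaw d hp 0
  have h1 := RWA.Q4_mi d hp 0 hH1
  have h2 : MI (d.Q4 0) (fun u => d.y (d.L (u.1 0)))
      (fun u => ((fun j => d.T (u.1 j)), (d.T u.2.1, d.T u.2.2))) (fun _ => ()) ≤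
      (n + 3) * (ι * d.X) := by
    refine le_trans (Pool.OC.mi_mono_left hQ.nonneg _ _ _ _ ?_) h1
    intro u u' hu hu' h
    have e1 : d.L u.2.1 = d.L u'.2.1 := (Prod.ext_iff.1 h).1
    show d.y (d.L (u.1 0)) = d.y (d.L (u'.1 0))
    rw [(RWA.Q4_pos d hp hu).2.2.1, (RWA.Q4_pos d hp hu').2.2.1, e1]
  rw [Pool.CLU.MI_eq hQ.nonneg] at h2
  have h3 : CH (d.Q4 0) (fun u => d.y (d.L (u.1 0))) (fun _ => ()) =
      H d.P (fun ω => d.y (d.L ω)) := by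
    have e1 : H (d.Q4 0) (fun u => (d.y (d.L (u.1 0)), ())) =
        H (d.Q4 0) (fun u => d.y (d.L (u.1 0))) :=
      H_congr hQ.nonneg (fun _ _ _ _ h => Prod.ext h rfl) fun _ _ _ _ h => (Prod.ext_iff.mp h).1
    have e2 : H (d.Q4 0) (fun _ => ()) = 0 := H_const hQ.sum_one ()
    have e3 : H (d.Q4 0) (fun u => d.y (d.L (u.1 0))) = H d.P (fun ω => d.y (d.L ω)) :=
      (Pool.L1.Q4_P d hp 0).H (fun ω => d.y (d.L ω))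
    unfold CH
    rw [e1, e2, sub_zero, e3]
  have h4 : CH (d.Q4 0) (fun u => d.y (d.L (u.1 0)))
      (fun u => (((fun j => d.T (u.1 j)), (d.T u.2.1, d.T u.2.2)), ())) =
      CH (d.Q4 0) (fun u => d.y (d.L (u.1 0)))
      (fun u => ((fun j => d.T (u.1 j)), (d.T u.2.1, d.T u.2.2))) :=
    CH_congr hQ.nonneg (fun _ _ _ _ h => (Prod.ext_iff.mp h).1)
      (fun _ _ _ _ h => (Prod.ext_iff.mp h).1)
      (fun _ _ _ _ h => (Prod.ext_iff.mp h).1) (fun _ _ _ _ h => Prod.ext h rfl)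
  rw [h3, h4] at h2
  have h5 := hH3
  unfold LDat.H3 at h5
  have hX : (0 : ℝ) ≤ d.X := Nat.cast_nonneg _
  have h6 : (ι₃ * Real.log 2 + (n + 3) * ι) * d.X ≤ ι' * Real.log 2 * d.X :=
    mul_le_mul_of_nonneg_right hι hX
  nlinarith

/-- **The last step.** -/
theorem fin_oneL {C ε : ℝ} {X₁ : ℕ} (hRem : RemAt k K C ε X₁) (b : Bas k (Mon k K))
    (hD : ∀ i, b.D i = dmono (i : Fin k → ℕ)) (d : LDat k n (Mon k K)) {A ns h a k₀ : ℕ}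
    {c ι ι₃ ι' : ℝ} (m : (Fin (n + 1) → d.Om) → ℤ) (hOK : d.OK b A c)
    (hS : Siz b d ns h m c) (hX : X₁ ≤ d.X) (hH1 : LMI d ι) (hH3 : d.H3 ι₃)
    (hι : ι₃ * Real.log 2 + (n + 3) * ι ≤ ι' * Real.log 2) (hι0 : 0 ≤ ι') (h1 : 1 ≤ ι' * d.X)
    (hco : (2 + (n + 1) ^ 2 * CA n k₀) * (2 : ℝ) ^ c ≤ (2 : ℝ) ^ (ι' * d.X))
    {M : ℝ} (hM0 : 0 ≤ M) (hM : M ≤ (8 * ns : ℕ))
    (hMb : (n + 1) ^ 2 * (2 : ℝ) ^ ((a : ℤ) + 4 - 2 * ns) ≤ (2 : ℝ) ^ (-M))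
    {p₁ p₂ p₃ p₄ : ℝ}
    (hN : Pr (d.Q4 0) {u | d.sep k₀ u.1 ∧ (2 : ℝ) ^ (-(4 * ns : ℤ)) ≤ |d.ta u.2| ∧
      (n + 1) ^ 2 * (2 : ℝ) ^ ((a : ℤ) + 4 - m u.1) * |d.ta u.2| < ‖d.gr b (8 * ns) u‖} ≤ p₁)
    (hsep : Pr d.Qr {v | ¬ d.sep k₀ v} ≤ p₂)
    (hta : Pr (d.Qp 0) {w | |d.ta w| < (2 : ℝ) ^ (-(4 * ns : ℤ))} ≤ p₃)
    (hm : Pr d.Qr {v | m v < 2 * ns} ≤ p₄) (hp : p₁ + p₂ + p₃ + p₄ ≤ ε) :
    Pr (d.Q4 0) {u | ∃ i, (2 : ℝ) ^ (C * Real.sqrt ι' * d.X - M) < |d.rs u i|} ≤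
      2 * ε + C * Real.sqrt ι' + p₂ := by
  classical
  have hlaw := hOK.law
  have hQ := RWA.Q4_isLaw d hlaw 0
  have hn0 : (0 : ℝ) ≤ n := Nat.cast_nonneg n
  -- the coefficients as functions of the times
  have hrs : ∀ u : (Fin (n + 1) → d.Om) × (d.Om × d.Om), d.sep k₀ u.1 → ∀ i,
      rsC d k₀ ((fun j => d.T (u.1 j)), (d.T u.2.1, d.T u.2.2)) i = d.rs u i := by
    intro u hu i
    unfold rsC
    have hs : sepT d k₀ (fun j => d.T (u.1 j)) := hu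
    rw [if_pos hs]
    rfl
  have hsep4 : Pr (d.Q4 0) {u | ¬ d.sep k₀ u.1} ≤ p₂ :=
    le_trans (le_of_eq (Pool.L1.Pr_marg (RWA.Q4_fst d hlaw 0) {v | ¬ d.sep k₀ v})) hsep
  have hm4 : Pr (d.Q4 0) {u | m u.1 < 2 * ns} ≤ p₄ :=
    le_trans (le_of_eq (Pool.L1.Pr_marg (RWA.Q4_fst d hlaw 0) {v | m v < 2 * ns})) hm
  have hta4 : Pr (d.Q4 0) {u | |d.ta u.2| < (2 : ℝ) ^ (-(4 * ns : ℤ))} ≤ p₃ :=
    le_trans (le_of_eq (Pool.L1.Pr_marg (RWA.Q4_snd d hlaw 0)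
      {w | |d.ta w| < (2 : ℝ) ^ (-(4 * ns : ℤ))})) hta
  have key := hRem ((Fin (n + 1) → d.Om) × (d.Om × d.Om))
    ((Fin (n + 1) → d.Tau) × (d.Tau × d.Tau)) (d.Q4 0) d.X (8 * ns)
    (fun u => d.y (d.L (u.1 0))) (fun u => ((fun j => d.T (u.1 j)), (d.T u.2.1, d.T u.2.2)))
    (rsC d k₀) ι' M hQ hX
    (fun u j => by
      have h2 := hOK.hy (d.L (u.1 0)) j
      unfold LDat.yR at h2
      rwa [abs_div, abs_of_pos (by positivity : (0 : ℝ) < 2 ^ d.X), div_le_one (by positivity)]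
        at h2)
    hι0 h1 (full_timesL b d hOK hH1 hH3 hι)
    (fun z i => (rsC_le b d hOK k₀ z i).trans hco) hM0 hM ?_
  · -- conclusion
    have h2 : Pr (d.Q4 0) {u | ∃ i, (2 : ℝ) ^ (C * Real.sqrt ι' * d.X - M) < |d.rs u i|} ≤
        Pr (d.Q4 0) ({u | ∃ i : Mon k K, (2 : ℝ) ^ (C * Real.sqrt ι' * d.X - M) <
          |rsC d k₀ ((fun j => d.T (u.1 j)), (d.T u.2.1, d.T u.2.2)) i|} ∪
          {u | ¬ d.sep k₀ u.1}) := by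
      refine Pool.KAF.Pr_mono hQ.nonneg fun u _ hu => ?_
      by_cases hs : d.sep k₀ u.1
      · obtain ⟨i, hi⟩ := hu
        refine Or.inl ⟨i, ?_⟩
        rw [hrs u hs i]
        exact hi
      · exact Or.inr hs
    have h3 := Pool.KAF.Pr_union_le hQ.nonneg {u | ∃ i : Mon k K,
      (2 : ℝ) ^ (C * Real.sqrt ι' * d.X - M) <
          |rsC d k₀ ((fun j => d.T (u.1 j)), (d.T u.2.1, d.T u.2.2)) i|} {u | ¬ d.sep k₀ u.1}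
    linarith
  · -- the gradients
    set E₁ : Set ((Fin (n + 1) → d.Om) × (d.Om × d.Om)) :=
      {u | d.sep k₀ u.1 ∧ (2 : ℝ) ^ (-(4 * ns : ℤ)) ≤ |d.ta u.2| ∧
      (n + 1) ^ 2 * (2 : ℝ) ^ ((a : ℤ) + 4 - m u.1) * |d.ta u.2| < ‖d.gr b (8 * ns) u‖} with hE₁
    set E₂ : Set ((Fin (n + 1) → d.Om) × (d.Om × d.Om)) := {u | ¬ d.sep k₀ u.1} with hE₂
    set E₃ : Set ((Fin (n + 1) → d.Om) × (d.Om × d.Om)) :=
      {u | |d.ta u.2| < (2 : ℝ) ^ (-(4 * ns : ℤ))} with hE₃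
    set E₄ : Set ((Fin (n + 1) → d.Om) × (d.Om × d.Om)) := {u | m u.1 < 2 * ns} with hE₄
    have h2 : Pr (d.Q4 0) {ω | (2 : ℝ) ^ (-M) < ‖fun j => ∑ i : Mon k K,
        rsC d k₀ ((fun j => d.T (ω.1 j)), (d.T ω.2.1, d.T ω.2.2)) i *
        dmono (i : Fin k → ℕ) (fun j => ⌊(2 : ℝ) ^ (8 * ns) * (d.y (d.L (ω.1 0)) j / 2 ^ d.X)⌋ /
          2 ^ (8 * ns)) j‖} ≤ Pr (d.Q4 0) ((E₁ ∪ E₂) ∪ (E₃ ∪ E₄)) := by
      refine Pool.KAF.Pr_mono hQ.nonneg fun u _ hu => ?_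
      by_contra hcon
      have hcon' : ¬ (((u ∈ E₁) ∨ (u ∈ E₂)) ∨ ((u ∈ E₃) ∨ (u ∈ E₄))) := hcon
      rw [not_or, not_or, not_or] at hcon'
      obtain ⟨⟨g1, g2⟩, ⟨g3, g4⟩⟩ := hcon'
      have hs : d.sep k₀ u.1 := not_not.1 g2
      have ht : (2 : ℝ) ^ (-(4 * ns : ℤ)) ≤ |d.ta u.2| := not_lt.1 g3
      have hmu : m u.1 = 2 * ns := le_antisymm (hS.m2 _) (not_lt.1 g4)
      have hg : ‖d.gr b (8 * ns) u‖ ≤ (2 : ℝ) ^ (-M) := by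
        have h5 : ¬ ((n + 1) ^ 2 * (2 : ℝ) ^ ((a : ℤ) + 4 - m u.1) * |d.ta u.2| <
            ‖d.gr b (8 * ns) u‖) := fun h6 => g1 ⟨hs, ht, h6⟩
        rw [not_lt, hmu] at h5
        refine h5.trans (le_trans ?_ hMb)
        calc ((n : ℝ) + 1) ^ 2 * (2 : ℝ) ^ ((a : ℤ) + 4 - 2 * ns) * |d.ta u.2|
            ≤ ((n : ℝ) + 1) ^ 2 * (2 : ℝ) ^ ((a : ℤ) + 4 - 2 * ns) * 1 :=
              mul_le_mul_of_nonneg_left (ta_le b d hOK u.2) (by positivity)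
          _ = ((n : ℝ) + 1) ^ 2 * (2 : ℝ) ^ ((a : ℤ) + 4 - 2 * ns) := mul_one _
      have h7 : (fun j => ∑ i : Mon k K,
          rsC d k₀ ((fun j => d.T (u.1 j)), (d.T u.2.1, d.T u.2.2)) i *
          dmono (i : Fin k → ℕ) (fun j => ⌊(2 : ℝ) ^ (8 * ns) *
            (d.y (d.L (u.1 0)) j / 2 ^ d.X)⌋ / 2 ^ (8 * ns)) j) = d.gr b (8 * ns) u := by
        funext j
        unfold LDat.gr grd
        refine Finset.sum_congr rfl fun i _ => ?_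
        rw [hrs u hs i, hD i]
        rfl
      have hu' : (2 : ℝ) ^ (-M) < ‖fun j => ∑ i : Mon k K,
        rsC d k₀ ((fun j => d.T (u.1 j)), (d.T u.2.1, d.T u.2.2)) i *
        dmono (i : Fin k → ℕ) (fun j => ⌊(2 : ℝ) ^ (8 * ns) * (d.y (d.L (u.1 0)) j / 2 ^ d.X)⌋ /
          2 ^ (8 * ns)) j‖ := hu
      rw [h7] at hu'
      exact absurd hg (not_le.2 hu')
    have h3 := Pool.KAF.Pr_union_le hQ.nonneg (E₁ ∪ E₂) (E₃ ∪ E₄)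
    have h4 := Pool.KAF.Pr_union_le hQ.nonneg E₁ E₂
    have h5 := Pool.KAF.Pr_union_le hQ.nonneg E₃ E₄
    linarith

end

end Pool.M5L
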