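import Pool.Agent.H29.L1L.Stmts
import Pool.Agent.H87.M5.Rwa

/-!
# L1 for arbitrary time laws: RowA from RowOK
-/

set_option autoImplicit false

namespace Pool.M5L

open Finset Real Pool.M5
open Pool.Agent.H49.Ent Pool.Agent.H32.Dense Pool.STK Pool.KAF Pool.KVA Pool.SLO
open Pool.M5.RWA

/-- **RWAL.** -/
theorem rwal_thm : RWALStmt := by
  classical
  intro k n I _ b d J m A ns k' k₁ e δ ι c hOK hH1 hδ hm hHm hrow i hi q W hqW hclose
  have hp := hOK.law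
  have hp0 := hp.nonneg
  have hQ := Q4_isLaw d hp i
  have hX : (0 : ℝ) ≤ d.X := Nat.cast_nonneg _
  have h := hrow ((Fin (n + 1) → d.Om) × (d.Om × d.Om)) (Fin (n + 1) → d.Tau)
    ((Fin (n + 1) → d.Tau) × (d.Tau × d.Tau)) ℤ
    (fun _ => ((Fin (n + 1) → d.Tau) × ℤ) × (Fin k → ℤ) × (Fin n → ℤ)) (d.Q4 i)
    (fun u => u.2.1) (fun u => u.2.2) (fun u j => d.T (u.1 j))
    (fun u => ((fun j => d.T (u.1 j)), (d.T u.2.1, d.T u.2.2))) (fun u => m u.1)
    (fun s u => d.GA b m s u.1) (fun s u => dg b d m s u.1) q W (8 * ns) (d.X - 8 * ns) hQ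
    ?_ ?_ ?_ ?_ ?_ ?_ ?_ ?_ ?_ ?_ ?_ ?_ ?_
  · refine le_trans (le_of_eq ?_) h
    refine Finset.sum_congr rfl fun s _ => ?_
    rw [pr_dbl]
    unfold Ex
    refine Finset.sum_congr rfl fun u _ => ?_
    rcases (hQ.nonneg u).eq_or_lt with h0 | h0
    · rw [← h0, zero_mul, zero_mul]
    congr 1
    obtain ⟨hu1, hu2, hu3, hu4⟩ := Q4_pos d hp h0
    by_cases hu : u ∈ {u | u ∈ W ∧ 0 ≤ (s : ℤ) + q u ∧ ((s : ℤ) + q u).toNat ∈ J u.2.1}
    · rw [Set.indicator_of_mem hu]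
      rw [← pr_cond_marg (Q4_fst d hp i) hQ.nonneg
        (fun u => ((fun j => d.T (u.1 j)), m u.1, d.GA b m s u.1)) (d.GA b m s) (w := u)]
      · refine pr_congr (fun ω => cond_nonneg hQ.nonneg _ _ _) fun u' hu' => ?_
        obtain ⟨hpos, _⟩ := (cond_pos_iff hQ.nonneg _ _ _).1 hu'
        obtain ⟨hv1, hv2, hv3, hv4⟩ := Q4_pos d hp hpos
        have hu'' : u ∈ W ∧ 0 ≤ (s : ℤ) + q u ∧ ((s : ℤ) + q u).toNat ∈ J u.2.1 := hu
        constructor
        · intro hmem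
          refine ⟨hu''.1, hu''.2.1, hu''.2.2, ?_⟩
          show (2 : ℝ) ^ (-((s : ℤ) + q u + k₁)) ≤
            |d.Z b (d.T u.2.1) (d.T u.2.2) (d.y (d.L u.2.1), d.c (d.L u.2.1)) -
              d.Z b (d.T u.2.1) (d.T u.2.2) (d.y (d.L u'.2.1), d.c (d.L u'.2.1))|
          rw [← hu3, ← hv3]
          exact hmem
        · rintro ⟨-, -, -, hmem⟩
          have hmem' : (2 : ℝ) ^ (-((s : ℤ) + q u + k₁)) ≤
            |d.Z b (d.T u.2.1) (d.T u.2.2) (d.y (d.L u.2.1), d.c (d.L u.2.1)) -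
              d.Z b (d.T u.2.1) (d.T u.2.2) (d.y (d.L u'.2.1), d.c (d.L u'.2.1))| := hmem
          rw [← hu3, ← hv3] at hmem'
          exact hmem'
      · intro u' hu'
        constructor
        · intro h1
          exact (Prod.ext_iff.1 (Prod.ext_iff.1 h1).2).2
        · intro h1
          have h2 := (GA_iff b d m s _ _).1 h1
          simp only [Prod.mk.injEq]
          exact ⟨funext h2.1, h2.2.1, h1⟩
    · rw [Set.indicator_of_notMem hu]
      symm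
      exact pr_empty _ _ fun v hv => hu ⟨hv.1, hv.2.1, hv.2.2.1⟩
  · intro ω
    exact law_self ((Q4_snd d hp i).comp (Qp_marg d hp0 i)) ω
  · intro ω
    exact law_self ((Q4_snd d hp i).comp (dbl_snd hp0)) ω
  · intro u hu
    exact (Q4_pos d hp hu).2.2.2
  · intro u u' _ _ h1
    simp only [Prod.mk.injEq] at h1 ⊢
    exact ⟨h1.1, h1.2.1, h1.2.2⟩
  · have h1 := Q4_mi d hp i hH1
    have h2 := mul_le_mul_of_nonneg_right hδ hX
    have h3 : ((n : ℝ) + 3) * (ι * d.X) = (n + 3) * ι * d.X := by ring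
    exact h1.trans (h3.trans_le h2)
  · intro u u' hu hu' h1
    have e1 : (fun j => d.T (u.1 j)) = fun j => d.T (u'.1 j) := (Prod.ext_iff.1 h1).1
    have e2 : d.L u.2.1 = d.L u'.2.1 := (Prod.ext_iff.1 h1).2
    exact hm _ _ (congrFun e1) (by rw [(Q4_pos d hp hu).2.2.1, (Q4_pos d hp hu').2.2.1, e2])
  · refine (Pool.OC.ch_le_H hQ _ _).trans ?_
    rw [(Q4_fst d hp i).H m]
    exact hHm
  · intro s _ u u' hu hu' h1
    simp only [Prod.mk.injEq] at h1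
    obtain ⟨e1, e2, e3⟩ := h1
    have e4 : (d.y (d.L u.2.1), d.c (d.L u.2.1)) = (d.y (d.L u'.2.1), d.c (d.L u'.2.1)) := e3
    simp only [Prod.mk.injEq] at e4
    rw [← (Q4_pos d hp hu).2.2.1, ← (Q4_pos d hp hu').2.2.1] at e4
    have e5 := cs_eq b d (congrFun e1) e4.1 e4.2
    have e6 : d.yR (d.L (u.1 0)) = d.yR (d.L (u'.1 0)) := by
      unfold LDat.yR
      rw [e4.1]
    rw [GA_iff]
    exact ⟨congrFun e1, e2, fun j => by rw [e6], fun a => by rw [e5, e2]⟩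
  · intro s _ u u' _ _ h1
    exact GA_succ b d (Prod.ext_iff.1 h1).1 (Prod.ext_iff.1 h1).2
  · intro s _ u u' _ _ h1
    obtain ⟨h2, h3⟩ := GA_pred b d (m := m) h1
    exact Prod.ext h2 h3
  · intro s hs u u' hu hu' h1
    simp only [Prod.mk.injEq] at h1
    obtain ⟨⟨e1, e2, e3⟩, e4, e5⟩ := h1
    have h2 := hqW u u' hu hu' (congrFun e1) e2 e3 e4 (y₀_of_GA b d hs e5)
    exact Prod.ext h2.1 (propext h2.2)
  · intro s u u' hs hu hu' hW _ _ h1
    have h2 := hclose u u'.1 s hu (Q4_pos d hp hu').1 hW hs h1.symm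
    have e1 := (Q4_pos d hp hu).2.2.1
    have e2 := (Q4_pos d hp hu').2.2.1
    show |d.Z b (d.T u.2.1) (d.T u.2.2) (d.y (d.L u.2.1), d.c (d.L u.2.1)) -
      d.Z b (d.T u.2.1) (d.T u.2.2) (d.y (d.L u'.2.1), d.c (d.L u'.2.1))| ≤ _
    rw [← e1, ← e2]
    exact h2
  · show d.X - 8 * ns ≤ d.X
    omega

end Pool.M5L
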