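import Pool.Agent.H29.L1L.Stmts
import Pool.Agent.H41.L1.SPF

/-!
# L1 for arbitrary time laws: the tangential position is full given the reference
-/

set_option autoImplicit false

namespace Pool.M5L

open Finset Real Pool.M5
open Pool.Agent.H49.Ent Pool.Agent.H32.Dense Pool.STK Pool.KAF Pool.KVA
open Pool.L1

/-- **SPRFL.** -/
theorem sprfl_thm : SPRFLStmt := by
  classical
  intro k n
  refine ⟨2 * (n + 3) + 2 * k, by positivity, ?_⟩
  intro I _ b d m A ns h ι c hd hS h1 h3 r M hrM hMX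
  set Q := d.Qr with hQdef
  have hQ : IsLaw Q := Qr_isLaw d hd.law
  have hl2 : 0 < Real.log 2 := Real.log_pos (by norm_num)
  have hl21 : (1 : ℝ) / 2 ≤ Real.log 2 := by
    have := Real.log_two_gt_d9
    linarith
  -- the variables
  set yI : (Fin (n + 1) → d.Om) → Fin k → ℤ := fun v => d.y (d.L (v 0)) with hyI
  set Lv : (Fin (n + 1) → d.Om) → d.Lam := fun v => d.L (v 0) with hLv
  set Tv : (Fin (n + 1) → d.Om) → (Fin (n + 1) → d.Tau) := fun v j => d.T (v j) with hTv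
  have hM : Marg Q d.P (fun v => v 0) := by
    rw [hQdef, Qr_eq]
    exact Pool.SLO.tup_marg hd.law.nonneg d.L n 0
  -- the entropy of the position
  have e1 : (k - ι) * d.X * Real.log 2 ≤ H Q yI := by
    have e2 := Pool.OCG.H_eq_CH_unit hQ yI
    have e3 := Pool.OCG.H_eq_CH_unit hd.law (fun ω => d.y (d.L ω))
    have e4 : CH Q yI (fun _ => ()) = CH d.P (fun ω => d.y (d.L ω)) (fun _ => ()) :=
      hM.CH (fun ω => d.y (d.L ω)) (fun _ => ())
    rw [e2, e4, ← e3]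
    exact h3
  -- the times and the line
  have e2 : MI Q Lv Tv (fun _ => ()) ≤ (n + 1) * (ι * d.X) := by
    have e3 := Pool.SLO.tup_mi hd.law d.L d.T n
    rw [← Qr_eq] at e3
    have e4 : MI d.P d.L d.T (fun _ => ()) = MI d.P d.T d.L (fun _ => ()) :=
      Pool.OC.mi_comm _ _ _ hd.law.nonneg
    rw [e4] at e3
    refine e3.trans ?_
    exact mul_le_mul_of_nonneg_left h1 (by positivity)
  have e3 : MI Q yI Tv (fun _ => ()) ≤ MI Q Lv Tv (fun _ => ()) := by
    have e4 := submod hQ.nonneg (X := Lv) (Y := fun v => (yI v, Tv v)) (Z := yI)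
      (W := fun v => (Lv v, Tv v)) (fun v v' _ _ h => by
        show d.y (d.L (v 0)) = d.y (d.L (v' 0))
        have : d.L (v 0) = d.L (v' 0) := h
        rw [this]) (fun v v' _ _ h => (Prod.ext_iff.1 h).1) (fun v v' _ _ h => by
        simp only [Prod.mk.injEq] at h ⊢
        exact ⟨h.1, h.2.2⟩)
    unfold MI
    rw [← Pool.OCG.H_eq_CH_unit hQ, ← Pool.OCG.H_eq_CH_unit hQ, ← Pool.OCG.H_eq_CH_unit hQ,
      ← Pool.OCG.H_eq_CH_unit hQ, ← Pool.OCG.H_eq_CH_unit hQ]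
    linarith
  have e4 : H Q yI - (n + 1) * (ι * d.X) ≤ CH Q yI Tv := by
    have e5 := e3.trans e2
    unfold MI at e5
    rw [← Pool.OCG.H_eq_CH_unit hQ, ← Pool.OCG.H_eq_CH_unit hQ, ← Pool.OCG.H_eq_CH_unit hQ] at e5
    unfold CH
    linarith
  -- the label
  have e5 : CH Q yI Tv - Real.log (6 * ns + 1) ≤ CH Q yI (d.lb m) := by
    have e6 : CH Q m Tv ≤ Real.log (6 * ns + 1) := by
      refine (CH_le_card hQ.nonneg hQ.sum_one m Tv (fun _ => Finset.Icc (-(4 * ns : ℤ)) (2 * ns))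
        (fun v _ => Finset.mem_Icc.2 ⟨hS.m1 v, hS.m2 v⟩)).trans ?_
      rw [Ex_const hQ.sum_one, Int.card_Icc]
      have e7 : (2 * (ns : ℤ) + 1 - -(4 * ns)) = ((6 * ns + 1 : ℕ) : ℤ) := by push_cast; ring
      rw [e7, Int.toNat_natCast]
      push_cast
      exact le_rfl
    have e7 := CH_chain hQ.nonneg yI m Tv
    have e8 : CH Q yI (fun v => (m v, Tv v)) = CH Q yI (d.lb m) := by
      refine CH_congr hQ.nonneg (fun v v' _ _ h => (Prod.ext_iff.1 h).1)
        (fun v v' _ _ h => (Prod.ext_iff.1 h).1) (fun v v' _ _ h => ?_) (fun v v' _ _ h => ?_)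
      · unfold LDat.lb
        simp only [Prod.mk.injEq] at h ⊢
        exact ⟨h.2, h.1⟩
      · unfold LDat.lb at h
        simp only [Prod.mk.injEq] at h ⊢
        exact ⟨h.2, h.1⟩
    have e9 : CH Q yI Tv ≤ CH Q (fun v => (yI v, m v)) Tv :=
      CH_mono_left hQ.nonneg fun v v' _ _ h => by
        simp only [Prod.mk.injEq] at h
        exact h.1.1
    rw [e7, e8] at e9
    linarith
  -- the last digits
  have e6 : CH Q yI (d.lb m) ≤ CH Q (Pool.SLO.Yd d.yv M) (d.lb m) +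
      k * (((d.X : ℝ) - M) * Real.log 2) := by
    have e7 := CH_le_add hQ.nonneg yI (Pool.SLO.Yd d.yv M) (d.lb m)
    have e8 : CH Q yI (fun v => (Pool.SLO.Yd d.yv M v, d.lb m v)) ≤
        CH Q yI (Pool.SLO.Yd d.yv M) :=
      CH_mono_cond hQ.nonneg fun v v' _ _ h => (Prod.ext_iff.1 h).1
    have e9 : CH Q yI (Pool.SLO.Yd d.yv M) ≤ k * (((d.X : ℝ) - M) * Real.log 2) :=
      CH_dig hQ hMX yI
    linarith
  -- the first digits
  have e7 : CH Q (Pool.SLO.Yd d.yv M) (d.lb m) ≤ CH Q (Pool.SLO.Yd d.yv r) (d.lb m) +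
      CH Q (Pool.SLO.Yd d.yv M) (fun v => (d.lb m v, Pool.SLO.Yd d.yv r v)) := by
    have e8 := CH_le_add hQ.nonneg (Pool.SLO.Yd d.yv M) (Pool.SLO.Yd d.yv r) (d.lb m)
    have e9 : CH Q (Pool.SLO.Yd d.yv M) (fun v => (Pool.SLO.Yd d.yv r v, d.lb m v)) =
        CH Q (Pool.SLO.Yd d.yv M) (fun v => (d.lb m v, Pool.SLO.Yd d.yv r v)) := by
      refine CH_congr hQ.nonneg (fun v v' _ _ h => (Prod.ext_iff.1 h).1)
        (fun v v' _ _ h => (Prod.ext_iff.1 h).1) (fun v v' _ _ h => ?_) (fun v v' _ _ h => ?_)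
      · simp only [Prod.mk.injEq] at h ⊢
        exact ⟨h.2, h.1⟩
      · simp only [Prod.mk.injEq] at h ⊢
        exact ⟨h.2, h.1⟩
    rw [e9] at e8
    exact e8
  have e8 : CH Q (Pool.SLO.Yd d.yv r) (d.lb m) ≤ k * (((r : ℝ) + 2) * Real.log 2) :=
    CH_first hQ r d.yv (fun v j => hd.hy (d.L (v 0)) j) (d.lb m)
  have hι : 0 ≤ ι * d.X := by
    have e9 : 0 ≤ MI d.P d.T d.L (fun _ => ()) := by
      have e10 := submod hd.law.nonneg (X := fun ω => (d.T ω, ())) (Y := fun ω => (d.L ω, ()))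
        (Z := fun _ => ()) (W := fun ω => ((d.T ω, d.L ω), ())) (fun _ _ _ _ _ => rfl)
        (fun _ _ _ _ _ => rfl) (fun _ _ _ _ h => by
          simp only [Prod.mk.injEq] at h ⊢
          exact ⟨⟨h.1.1, h.2.1⟩, trivial⟩)
      unfold MI CH
      linarith
    exact e9.trans h1
  have hlog : 0 ≤ Real.log (6 * ns + 1) := Real.log_nonneg (by
    have : (0 : ℝ) ≤ ns := Nat.cast_nonneg ns
    linarith)
  have hk0 : (0 : ℝ) ≤ k := Nat.cast_nonneg k
  have hn0 : (0 : ℝ) ≤ n := Nat.cast_nonneg n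
  -- the constants
  have f1 : (n + 1) * (ι * d.X) ≤ (2 * (n + 1)) * (ι * d.X) * Real.log 2 := by
    have : 0 ≤ (n + 1) * (ι * d.X) * (2 * Real.log 2 - 1) := by
      refine mul_nonneg (mul_nonneg (by linarith) hι) (by linarith)
    nlinarith
  have f2 : Real.log (6 * ns + 1) ≤ 2 * Real.log (6 * ns + 1) * Real.log 2 := by
    have : 0 ≤ Real.log (6 * ns + 1) * (2 * Real.log 2 - 1) := mul_nonneg hlog (by linarith)
    nlinarith
  have f3 : (2 * ((n : ℝ) + 3) + 2 * k) * (ι * d.X + Real.log (6 * ns + 1) + 1) ≥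
      2 * (n + 1) * (ι * d.X) + ι * d.X + 2 * Real.log (6 * ns + 1) + 2 * k := by
    have g1 : 0 ≤ (3 + 2 * (k : ℝ)) * (ι * d.X) := mul_nonneg (by linarith) hι
    have g2 : 0 ≤ (2 * (n : ℝ) + 4 + 2 * k) * Real.log (6 * ns + 1) :=
      mul_nonneg (by linarith) hlog
    nlinarith
  have f4 := mul_le_mul_of_nonneg_right f3 hl2.le
  nlinarith [e1, e4, e5, e6, e7, e8, f1, f2, f4]

end Pool.M5L
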