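import Pool.Agent.H29.L1L.Sprg
import Pool.Agent.H29.L1L.Spf
import Pool.Agent.H48.M5.SprA

/-!
# L1 for arbitrary time laws: SPRA
-/

set_option autoImplicit false

namespace Pool.M5L

open Finset Real Pool.M5
open Pool.Agent.H49.Ent Pool.Agent.H32.Dense Pool.STK Pool.KAF
open Pool.M5.S48

/-- **SPRAL** from its rows. -/
theorem spral_of (hGd : SPRGLStmt) (hFu : SPRFLStmt) : SPRALStmt := by
  classical
  intro k n u ε₄ hu hu1 hε₄
  rcases Nat.eq_zero_or_pos k with hk0 | hk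
  · refine ⟨1, 1, 1, one_pos, one_pos, one_pos, fun k₀ => ⟨1, 1, le_rfl, one_pos, fun k'' A =>
      ⟨0, 0, ?_⟩⟩⟩
    intro I _ b d J m ns h k' k₁ e c hOK hS _ _ _ _ _ _ _ _ _ _ _ _ _ _
    refine ⟨fun _ _ => 0, fun _ _ => le_rfl, fun _ _ _ _ => rfl, ?_, ?_⟩
    · intro s _ v _ ξ hξ
      exfalso
      subst hk0
      have : ξ = 0 := Subsingleton.elim _ _
      rw [this, norm_zero] at hξ
      exact lt_irrefl _ hξ
    · rw [Finset.sum_eq_zero]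
      · positivity
      · intro s _
        unfold Ex
        simp
  have hn1 : (0 : ℝ) < n + 1 := by positivity
  set δ : ℝ := ε₄ / 16 with hδ
  have hδ0 : 0 < δ := by positivity
  obtain ⟨ε₇', ε₈', hε₇', hε₈', h1⟩ := hGd k n u (δ / (n + 1)) hu hu1 (by positivity)
  obtain ⟨C, hC, h4⟩ := hFu k n
  refine ⟨min ε₇' (δ / (n + 1) ^ 3), δ / (11 * (n + 1)), min ε₈' (δ / C),
    lt_min hε₇' (by positivity), by positivity, lt_min hε₈' (by positivity), fun k₀ => ?_⟩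
  obtain ⟨B, hB, h2⟩ := h1 k₀
  set CB : ℝ := n * (1 + Real.log (2 * n * B + 4 * n * B * k + 2) / Real.log 2) + k + 3 with hCB
  obtain ⟨K₀, hK₀⟩ := exists_nat_ge (CB / δ)
  set K : ℕ := K₀ + 1 with hK
  have hK0 : (0 : ℝ) < K := by rw [hK]; positivity
  have hKδ : CB / K ≤ δ := by
    rw [div_le_iff₀ hK0]
    have h3 : CB ≤ K₀ * δ := (div_le_iff₀ hδ0).1 hK₀
    have h4 : (K₀ : ℝ) * δ ≤ K * δ := by
      refine mul_le_mul_of_nonneg_right ?_ hδ0.le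
      rw [hK]
      push_cast
      linarith
    linarith
  obtain ⟨e₀, he₀, h3⟩ := h2 K (δ / (n ^ 2 + 1)) (by positivity)
  refine ⟨K, e₀, by omega, he₀, fun k'' A => ?_⟩
  obtain ⟨k₁₀, n₀, h5⟩ := h3 k'' A
  obtain ⟨n₁, hn₁⟩ := bv_le n k₀
  obtain ⟨n₂, hn₂⟩ := log_small hC hδ0
  obtain ⟨n₃, hn₃⟩ := exists_nat_ge ((n * (2 * K + 2) : ℝ) / δ)
  refine ⟨k₁₀, n₀ + n₁ + n₂ + n₃ + K, ?_⟩
  intro I _ b d J m ns h k' k₁ e c hOK hS hns hκ hk' hk₁ hk₁n he hRow hJ hfq hTA hTB hTC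
    hH1 hH3
  have hX : 64 * ns ≤ d.X := hS.nX
  have hXR : (64 : ℝ) * ns ≤ d.X := by exact_mod_cast hX
  have hX0 : (0 : ℝ) ≤ d.X := Nat.cast_nonneg _
  have hns0 : (0 : ℝ) ≤ ns := Nat.cast_nonneg _
  have hQ : IsLaw d.Qr := Pool.L1.Qr_isLaw d hOK.law
  have hg := h5 I b d J m ns h k' k₁ e c hOK hS (by omega) hk' hk₁ hk₁n he hRow
    (J1_mono (min_le_left _ _) hJ) (hfq.trans (min_le_left _ _)) (TA_mono (min_le_left _ _) hTA)
    (TB_mono (min_le_left _ _) hTB) (TC_mono (min_le_left _ _) hTC)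
  have hf := h4 I b d m A ns h (min ε₈' (δ / C)) c hOK hS hH1 hH3
  have hsep := Pool.L1.sep_prob b d hOK hTC
  have hε₆ : ((n : ℝ) + 1) ^ 2 * min ε₇' (δ / (n + 1) ^ 3) ≤ δ / (n + 1) := by
    calc ((n : ℝ) + 1) ^ 2 * min ε₇' (δ / (n + 1) ^ 3) ≤ ((n : ℝ) + 1) ^ 2 * (δ / (n + 1) ^ 3) :=
          mul_le_mul_of_nonneg_left (min_le_right _ _) (by positivity)
      _ = δ / (n + 1) := by field_simp
  refine ⟨fun s v => Mf b d m k₀ K s v, fun s v => Mf_nonneg b d m k₀ K s v,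
    fun s v v' hG => Mf_cell b d m k₀ K s hG,
    fun s _ v hv ξ hξ => Mf_strip b d m k₀ (by omega) hQ s hv ξ hξ, ?_⟩
  have hsum := Mf_sum b d m k₀ (K := K) (by omega) hk hQ (B := B) (e' := δ / (n ^ 2 + 1))
    (io := C * (min ε₈' (δ / C) * d.X + Real.log (6 * ns + 1) + 1)) (ε₆ := δ / (n + 1))
    (G := δ / (n + 1) * d.X) (ns := ns) (m' := 11 * ns) hB (by positivity) (by omega) (by omega)
    (hn₁ k I b d A ns h m c hOK hS (by omega)) hf (hsep.trans hε₆) hg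
  refine le_trans hsum ?_
  -- the terms
  have hn0 : (0 : ℝ) ≤ n := Nat.cast_nonneg n
  have t1 : δ / (n + 1) * d.X ≤ δ * d.X := ar1 hn0 hδ0.le hX0
  have t2 : C * (min ε₈' (δ / C) * d.X + Real.log (6 * ns + 1) + 1) ≤ δ * d.X + δ * d.X := by
    refine ar2 hC hX0 (min_le_right _ _) ?_
    refine (hn₂ ns (by omega)).trans (mul_le_mul_of_nonneg_left ?_ hδ0.le)
    linarith
  have t3 : (n : ℝ) * ((11 * ns : ℕ) + K + 2) + n * K ≤ δ * d.X + δ * d.X := by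
    have a1 : (n : ℝ) * (11 * ns) ≤ δ * d.X := ar3 hn0 hns0 hκ
    have a2 : (n : ℝ) * (2 * K + 2) ≤ δ * d.X := by
      have a3 : (n : ℝ) * (2 * K + 2) ≤ n₃ * δ := (div_le_iff₀ hδ0).1 hn₃
      have a4 : (n₃ : ℝ) ≤ d.X := by exact_mod_cast (show n₃ ≤ d.X by omega)
      refine a3.trans ?_
      rw [mul_comm]
      exact mul_le_mul_of_nonneg_left a4 hδ0.le
    push_cast
    calc (n : ℝ) * (11 * ns + K + 2) + n * K = n * (11 * ns) + n * (2 * K + 2) := by ring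
      _ ≤ δ * d.X + δ * d.X := add_le_add a1 a2
  have t4 : (d.X / K : ℝ) * CB ≤ δ * d.X := by
    calc (d.X / K : ℝ) * CB = (CB / K) * d.X := by ring
      _ ≤ δ * d.X := mul_le_mul_of_nonneg_right hKδ hX0
  have t5 : (d.X : ℝ) * (n * (n * (δ / (n ^ 2 + 1)))) ≤ δ * d.X := ar5 hδ0.le hX0
  have t6 : (n : ℝ) * (δ / (n + 1) * d.X) ≤ δ * d.X := ar6 hn0 hδ0.le hX0
  have hfin : ε₄ * (d.X : ℝ) = 16 * (δ * d.X) := by
    rw [hδ]
    ring
  have hδX : 0 ≤ δ * d.X := by positivity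
  rw [hfin]
  have e1 : (n : ℝ) * (δ / (n + 1) * d.X + δ / (n + 1) * d.X + K) =
      n * (δ / (n + 1) * d.X) + n * (δ / (n + 1) * d.X) + n * K := by ring
  rw [e1]
  linarith

/-- **SPRAL.** -/
theorem spral_thm : SPRALStmt := spral_of sprgl_thm sprfl_thm

end Pool.M5L
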