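import Pool.Agent.H29.L1L.Thm
import Pool.Agent.H31.M5.L1W

/-!
# L1 for arbitrary time laws, output for `n + 1` nodes and one more sample of the line
-/

set_option autoImplicit false

namespace Pool.M5L

open Finset Real Pool.M5
open Pool.Agent.H49.Ent Pool.Agent.H32.Dense Pool.STK Pool.KAF

/-- **Lemma L1 for arbitrary time laws**, output for `n + 1` nodes at distance `2 ^ (-k')` and one
more sample: the coefficients at its time are the values of the interpolation of the coefficients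
at the nodes. -/
def L1WLStmt : Prop :=
  ∀ (k n K A : ℕ) (b : Bas k (Mon k K)) (c ε : ℝ), (∀ i, b.g i = mono (i : Fin k → ℕ)) →
    (∀ i, b.D i = dmono (i : Fin k → ℕ)) → 0 < c → 0 < ε →
    ∃ κ₂ κ ι₃ εT : ℝ, 0 < κ₂ ∧ 0 < κ ∧ κ ≤ 1 ∧ 0 < ι₃ ∧ 0 < εT ∧ ∀ k' : ℕ,
      ∃ (π₀ ι : ℝ) (X₀ : ℕ), 0 < π₀ ∧ 0 < ι ∧ ∀ d : LDat k n (Mon k K), d.OK b A (ι₃ * d.X) →
        X₀ ≤ d.X → LMI d ι → TC d k' εT → LTB d k' εT → (d.toR b).H2 ι → d.H3 ι₃ →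
        (d.toR b).H5 c κ π₀ ∅ →
        Pr d.Q1 {u | ¬ d.sep k' u.1 ∨ ∃ i, (2 : ℝ) ^ (-(κ₂ * d.X)) <
          |d.co (d.T u.2) i - d.itp u.1 i (d.th (d.T u.2))|} ≤ ε

open Pool.M5.W31 in
/-- **L1WL** from L1L. -/
theorem l1wl_of (hL : L1LStmt) : L1WLStmt := by
  intro k n K A b c ε hg hD hc hε
  obtain ⟨κ₂, κ, ι₃, εT, h1, h2, h3, h4, h5, hmain⟩ :=
    hL k n K A b c (ε / (2 * (n + 2))) hg hD hc (by positivity)
  refine ⟨κ₂ / 2, κ, ι₃, min εT (ε / (2 * (n + 1) ^ 2)), by positivity, h2, h3, h4,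
    lt_min h5 (by positivity), fun k' => ?_⟩
  obtain ⟨π₀, ι, X₀, h6, h7, hmain⟩ := hmain k'
  set Lg : ℕ := n + 1 + k' * n with hLg
  refine ⟨π₀, ι, max X₀ ⌈2 * Lg / κ₂⌉₊, h6, h7, ?_⟩
  intro d hd hX hMI hTC hTB hH2 hH3 hH5
  have hX0 : X₀ ≤ d.X := (le_max_left _ _).trans hX
  have hX1 : (2 * Lg / κ₂ : ℝ) ≤ d.X :=
    (Nat.le_ceil _).trans (by exact_mod_cast (le_max_right _ _).trans hX)
  have hXn : (0 : ℝ) ≤ d.X := Nat.cast_nonneg _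
  have hTB' : LTB d k' εT := hTB.trans (mul_le_mul_of_nonneg_right (min_le_left _ _) hXn)
  have hr := hmain d hd hX0 hMI (le_trans hTC (min_le_left _ _)) hTB' hH2 hH3 hH5
  have hTC' : TC d k' (ε / (2 * (n + 1) ^ 2)) := le_trans hTC (min_le_right _ _)
  have hev := l1w_ev b d hd (e := (2 : ℝ) ^ (-(κ₂ * d.X))) (by positivity) hTC' hr
  have hsz : (2 : ℝ) ^ Lg * (2 : ℝ) ^ (-(κ₂ * d.X)) ≤ (2 : ℝ) ^ (-(κ₂ / 2 * d.X)) := by
    rw [← Real.rpow_natCast, ← Real.rpow_add (by norm_num)]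
    refine Real.rpow_le_rpow_of_exponent_le (by norm_num) ?_
    rw [div_le_iff₀ h1] at hX1
    linarith
  have hbound : ((n : ℝ) + 1) ^ 2 * (ε / (2 * (n + 1) ^ 2)) + (n + 2) * (ε / (2 * (n + 2))) =
      ε := by
    field_simp
    ring
  rw [hbound] at hev
  refine le_trans (Pool.KAF.Pr_mono (Q1_nonneg d hd.law) ?_) hev
  rintro u - (a1 | ⟨i, hi⟩)
  · exact Or.inl a1
  · exact Or.inr ⟨i, lt_of_le_of_lt hsz hi⟩

/-- **L1WL.** -/
theorem l1wl_thm : L1WLStmt := l1wl_of l1l_thm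

end Pool.M5L
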