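import Pool.Agent.H48.M5.Spr
import Pool.Agent.H83.OCG.Time2

/-!
# L1 for arbitrary time laws: statements

The hypothesis (H1) of lemma L1 (`Pool.M5.L1Stmt`: the digits of the time are full given the line
and the first digits are nearly full) is replaced by a much weaker one: `T` is nearly independent
of the line, two samples of one line are not nearer than `2 ^ (-k')` outside probability `εT`, and
the same holds in the mean over the scales in the windows of the scale. The number `εT` is chosen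
before `k'`, and so are the gain `κ₂`, the length `κ` of the blocks of (H5), the constant of (H3)
and the bound for the coefficients.
Nothing is assumed about the entropy of the time.
-/

set_option autoImplicit false

namespace Pool.M5L

open Finset Real Pool.M5
open Pool.Agent.H49.Ent Pool.Agent.H32.Dense Pool.STK Pool.KAF

/-- (H1a) `T` is nearly independent of the line. -/
def LMI {k n : ℕ} {I : Type} (d : LDat k n I) (ι : ℝ) : Prop :=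
  Pool.KVA.MI d.P d.T d.L (fun _ => ()) ≤ ι * d.X

/-- The sum over the scales of the probabilities that two samples of one line and of one window
of the scale `i` are nearer than `2 ^ (-(i + k'))`. -/
def LTB {k n : ℕ} {I : Type} (d : LDat k n I) (k' : ℕ) (ε : ℝ) : Prop :=
  ∑ i ∈ range d.X, Pool.OCG.nr d.P d.L (fun ω => d.th (d.T ω)) k' i ≤ ε * d.X

/-- **Lemma L1 for arbitrary time laws.** -/
def L1LStmt : Prop :=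
  ∀ (k n K A : ℕ) (b : Bas k (Mon k K)) (c ε : ℝ), (∀ i, b.g i = mono (i : Fin k → ℕ)) →
    (∀ i, b.D i = dmono (i : Fin k → ℕ)) → 0 < c → 0 < ε →
    ∃ κ₂ κ ι₃ εT : ℝ, 0 < κ₂ ∧ 0 < κ ∧ κ ≤ 1 ∧ 0 < ι₃ ∧ 0 < εT ∧ ∀ k' : ℕ,
      ∃ (π₀ ι : ℝ) (X₀ : ℕ), 0 < π₀ ∧ 0 < ι ∧ ∀ d : LDat k n (Mon k K), d.OK b A (ι₃ * d.X) →
        X₀ ≤ d.X → LMI d ι → TC d k' εT → LTB d k' εT → (d.toR b).H2 ι → d.H3 ι₃ →
        (d.toR b).H5 c κ π₀ ∅ →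
        Pr (d.Q4 0) {u | ∃ i, (2 : ℝ) ^ (-(κ₂ * d.X)) < |d.rs u i|} ≤ ε

/-- Time distances from the sum over the scales. -/
def TIMLStmt : Prop :=
  ∀ (ε κ₂ : ℝ), 0 < ε → 0 < κ₂ → ∃ ε₀ : ℝ, 0 < ε₀ ∧ ∀ k' : ℕ, ∃ X₀ : ℕ,
    ∀ (k n : ℕ) (I : Type) (d : LDat k n I), IsLaw d.P → X₀ ≤ d.X → LTB d k' ε₀ →
      TA d ⌊κ₂ * d.X⌋₊ ε ∧ TB d ⌊κ₂ * d.X⌋₊ k' ε

/-- RowA from RowOK. -/
def RWALStmt : Prop :=
  ∀ (k n : ℕ) (I : Type) [Fintype I] (b : Bas k I) (d : LDat k n I) (J : d.Om → Set ℕ)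
    (m : (Fin (n + 1) → d.Om) → ℤ) (A ns k' k₁ : ℕ) (e δ ι c : ℝ), d.OK b A c →
    LMI d ι → (n + 3) * ι ≤ δ → d.Lab m → H d.Qr m ≤ δ * d.X →
    (d.toR b).RowOK J k' k₁ (2 ^ (k + n)) e δ → RowA b d J m ns k' k₁ e

/-- SPRG: in most cells there are `n` spanning forms which are almost constant. The constants of
the hypotheses on events do not depend on the separation `k₀`. -/
def SPRGLStmt : Prop :=
  ∀ (k n : ℕ) (u ε : ℝ), 0 < u → u ≤ 1 → 0 < ε → ∃ ε₇ ε₈ : ℝ, 0 < ε₇ ∧ 0 < ε₈ ∧ ∀ k₀ : ℕ,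
    ∃ B : ℝ, 0 ≤ B ∧
    ∀ (K : ℕ) (e' : ℝ), 0 < e' → ∃ e₀ : ℝ, 0 < e₀ ∧ ∀ k'' A : ℕ, ∃ k₁₀ n₀ : ℕ,
      ∀ (I : Type) [Fintype I] (b : Bas k I) (d : LDat k n I) (J : d.Om → Set ℕ)
      (m : (Fin (n + 1) → d.Om) → ℤ) (ns h k' k₁ : ℕ) (e c : ℝ), d.OK b A c →
      Siz b d ns h m c → n₀ ≤ ns → k + 2 * n + 6 ≤ k' → k₁₀ ≤ k₁ → k₁ ≤ ns → e ≤ e₀ →
      RowA b d J m ns k' k₁ e → (d.toR b).J1 J h u ε₈ ∅ →
      Pr d.Qr {v | u / 32 * ns < d.fq b (8 * ns) ns v ((2 : ℝ) ^ (1 - m v))} ≤ ε₈ →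
      TA d ns ε₈ → TB d ns k'' ε₈ → TC d k₀ ε₇ →
      ∑ s ∈ Finset.Ico (8 * ns) (d.X - 8 * ns), Pr d.Qr {v | d.sep k₀ v ∧
        ¬ Pool.SLO.Gd B d.Qr (d.lb m) d.yv (d.bv b m k₀) K e' s v} ≤ ε * d.X

/-- SPRF: the tangential position is full given the reference. -/
def SPRFLStmt : Prop :=
  ∀ k n : ℕ, ∃ C : ℝ, 0 < C ∧ ∀ (I : Type) [Fintype I] (b : Bas k I) (d : LDat k n I)
    (m : (Fin (n + 1) → d.Om) → ℤ) (A ns h : ℕ) (ι c : ℝ), d.OK b A c → Siz b d ns h m c →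
    LMI d ι → d.H3 ι → ∀ r M, r ≤ M → M ≤ d.X →
      (k * ((M : ℝ) - r) - C * (ι * d.X + Real.log (6 * ns + 1) + 1)) * Real.log 2 ≤
        CH d.Qr (Pool.SLO.Yd d.yv M) (fun v => (d.lb m v, Pool.SLO.Yd d.yv r v))

/-- SPRA: (A1)-(A3), the telescope. The number of the scales does not depend on `k₀`. -/
def SPRALStmt : Prop :=
  ∀ (k n : ℕ) (u ε₄ : ℝ), 0 < u → u ≤ 1 → 0 < ε₄ → ∃ ε₇ κ₂ ε₈ : ℝ, 0 < ε₇ ∧ 0 < κ₂ ∧ 0 < ε₈ ∧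
    ∀ k₀ : ℕ, ∃ (a : ℕ) (e₀ : ℝ), 1 ≤ a ∧ 0 < e₀ ∧ ∀ k'' A : ℕ, ∃ k₁₀ n₀ : ℕ,
      ∀ (I : Type) [Fintype I] (b : Bas k I) (d : LDat k n I) (J : d.Om → Set ℕ)
      (m : (Fin (n + 1) → d.Om) → ℤ) (ns h k' k₁ : ℕ) (e c : ℝ), d.OK b A c →
      Siz b d ns h m c → n₀ ≤ ns → (ns : ℝ) ≤ κ₂ * d.X → k + 2 * n + 6 ≤ k' → k₁₀ ≤ k₁ →
      k₁ ≤ ns → e ≤ e₀ → RowA b d J m ns k' k₁ e → (d.toR b).J1 J h u ε₈ ∅ →
      Pr d.Qr {v | u / 32 * ns < d.fq b (8 * ns) ns v ((2 : ℝ) ^ (1 - m v))} ≤ ε₈ →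
      TA d ns ε₈ → TB d ns k'' ε₈ → TC d k₀ ε₇ → LMI d ε₈ → d.H3 ε₈ → SPR b d m ns a ε₄

end Pool.M5L
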