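import Pool.Agent.H29.L1L.Main
import Pool.Agent.H86.OC.ROW
import Pool.Agent.H86.M5.Qnt
import Pool.Agent.H92.M5.Als
import Pool.Agent.H21.M5.Nlc
import Pool.Agent.H41.L1.REMS

/-!
# L1 for arbitrary time laws
-/

set_option autoImplicit false

namespace Pool.M5L

/-- **Lemma L1 for arbitrary time laws.** -/
theorem l1l_thm : L1LStmt :=
  l1l_of_rows Pool.OC.RS.row_M5 timl_thm Pool.M5.Q86.qnt_thm rwal_thm spral_thm Pool.M5.nlc_thm
    Pool.M5.A92.als_thm Pool.L1.lam_thm Pool.L1.rem_thm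

end Pool.M5L
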