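import Pool.Agent.H29.L1L.Stmts

/-!
# L1 for arbitrary time laws: time distances and RowA
-/

set_option autoImplicit false

namespace Pool.M5L

open Finset Real Pool.M5
open Pool.Agent.H49.Ent Pool.Agent.H32.Dense Pool.STK Pool.KAF
open Pool.OCG (nr nr_nonneg ta_of_nr kp)

/-- Time distances from the sum over the scales. -/
theorem timl_thm : TIMLStmt := by
  intro ε κ₂ hε hκ
  refine ⟨ε * κ₂ / 64, by positivity, ?_⟩
  intro k'
  obtain ⟨X₀, hX₀⟩ := exists_nat_ge ((64 + 64 * k') / κ₂)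
  refine ⟨X₀, fun k n I d hd hX hL => ?_⟩
  have h0 := hd.nonneg
  unfold LTB at hL
  set ns : ℕ := ⌊κ₂ * d.X⌋₊ with hn
  have hX0 : (0 : ℝ) ≤ d.X := Nat.cast_nonneg _
  have hngt : κ₂ * d.X < ns + 1 := Nat.lt_floor_add_one _
  have hXX : (64 + 64 * k') / κ₂ ≤ (d.X : ℝ) := hX₀.trans (by exact_mod_cast hX)
  rw [div_le_iff₀ hκ] at hXX
  have hk0 : (0 : ℝ) ≤ k' := Nat.cast_nonneg _
  have hXp : (0 : ℝ) < κ₂ * d.X := by linarith
  have hnn : ∀ v, 0 ≤ nr d.P d.L (fun ω => d.th (d.T ω)) k' v := fun v => nr_nonneg h0 _ _ _ _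
  constructor
  · intro i i' hi hi'
    have hg : (κ₂ * d.X / 16 : ℝ) ≤ (i' : ℝ) - k' - i := by
      have e1 : ns < 4 * (i' - i) + 4 := by omega
      have e2 : (ns : ℝ) < 4 * ((i' - i : ℕ) : ℝ) + 4 := by exact_mod_cast e1
      rw [Nat.cast_sub (by omega)] at e2
      linarith
    have hik : i + k' ≤ i' := by
      have : (i + k' : ℝ) ≤ i' := by
        have : 0 ≤ κ₂ * d.X / 16 := by positivity
        linarith
      exact_mod_cast this
    have key := ta_of_nr hd d.L (fun ω => d.th (d.T ω)) hik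
    have h1 : ∑ v ∈ Finset.Ico i (i' - k'), nr d.P d.L (fun ω => d.th (d.T ω)) k' v ≤
        ε * κ₂ / 64 * d.X := by
      refine le_trans (Finset.sum_le_sum_of_subset_of_nonneg ?_ fun v _ _ => hnn v) hL
      intro v hv
      have := (Finset.mem_Ico.1 hv).2
      exact Finset.mem_range.2 (by omega)
    set P0 := Pr (dbl d.P (kp d.L (fun ω => d.th (d.T ω)) i))
      {w | |d.th (d.T w.2) - d.th (d.T w.1)| < (2 : ℝ) ^ (-(i' : ℤ))} with hP0
    have hP00 : 0 ≤ P0 := Pool.KAF.Pr_nonneg (fun w => glue_nonneg h0 h0 w) _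
    have h2 : κ₂ * d.X / 16 * P0 ≤ 3 * (ε * κ₂ / 64 * d.X) :=
      (mul_le_mul_of_nonneg_right hg hP00).trans (key.trans (by linarith))
    show P0 ≤ ε
    have h3 : κ₂ * d.X * P0 ≤ κ₂ * d.X * ε := by
      have : 0 ≤ κ₂ * d.X * ε := by positivity
      linarith
    exact le_of_mul_le_mul_left h3 hXp
  · intro a b hab hb
    have hg : (κ₂ * d.X / 16 : ℝ) ≤ (b : ℝ) - a := by
      have e1 : ns < 8 * (b - a) + 8 := by omega
      have e2 : (ns : ℝ) < 8 * ((b - a : ℕ) : ℝ) + 8 := by exact_mod_cast e1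
      rw [Nat.cast_sub (by omega)] at e2
      linarith
    have h1 : ∑ v ∈ Finset.Ico a b, nr d.P d.L (fun ω => d.th (d.T ω)) k' v ≤
        ε * κ₂ / 64 * d.X := by
      refine le_trans (Finset.sum_le_sum_of_subset_of_nonneg ?_ fun v _ _ => hnn v) hL
      intro v hv
      have := (Finset.mem_Ico.1 hv).2
      exact Finset.mem_range.2 (by omega)
    refine le_trans h1 ?_
    have h2 := mul_le_mul_of_nonneg_left hg hε.le
    have h3 : 0 ≤ ε * (κ₂ * d.X) := by positivity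
    linarith

end Pool.M5L
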